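import Pool.Agent.Q218.LL.Lim

/-!
Mixing and the zero-one law at the starting point for the limit laws of the exploration path.
-/

set_option autoImplicit false

namespace Pool.Agent.Q218.LL

open H984H H974 Finset H342P H984P MeasureTheory Filter Topology
open Pool.Agent.Q218.ZO Pool.Agent.Q218.DC

section approx

variable {E : Type*} [MetricSpace E] [MeasurableSpace E] [BorelSpace E]

theorem lip_approx (μ : Measure E) [IsProbabilityMeasure μ] {A : Set E} (hA : MeasurableSet A)
    {ε : ℝ} (hε : 0 < ε) : ∃ (g : E → ℝ) (L : ℝ), 0 < L ∧ (∀ x, 0 ≤ g x) ∧ (∀ x, g x ≤ 1) ∧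
      (∀ x y, |g x - g y| ≤ L * dist x y) ∧
      ∫ x, |A.indicator (fun _ => (1 : ℝ)) x - g x| ∂μ ≤ ε := by
  obtain ⟨F, hFA, hFc, hF⟩ := hA.exists_isClosed_diff_lt (measure_ne_top μ A)
    (ε := ENNReal.ofReal (ε / 2)) (ENNReal.ofReal_pos.2 (by positivity)).ne'
  have hδp : ∀ n : ℕ, (0 : ℝ) < 1 / ((n : ℝ) + 1) := fun n => by positivity
  have hlim := tendsto_lintegral_thickenedIndicator_of_isClosed μ hFc hδp
    tendsto_one_div_add_atTop_nhds_zero_nat
  have hlt : μ F < μ F + ENNReal.ofReal (ε / 2) :=
    ENNReal.lt_add_right (measure_ne_top μ F) (ENNReal.ofReal_pos.2 (by positivity)).ne'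
  obtain ⟨n, hn⟩ := (hlim.eventually (gt_mem_nhds hlt)).exists
  set δ : ℝ := 1 / ((n : ℝ) + 1) with hδ
  have hδ0 : 0 < δ := hδp n
  set g : E → ℝ := fun x => ((thickenedIndicator (hδp n) F x : NNReal) : ℝ) with hg
  have hgm : Measurable g := by
    have : Continuous g := NNReal.continuous_coe.comp (thickenedIndicator (hδp n) F).continuous
    exact this.measurable
  have hg0 : ∀ x, 0 ≤ g x := fun x => NNReal.coe_nonneg _
  have hg1 : ∀ x, g x ≤ 1 := fun x => by
    have := thickenedIndicator_le_one (hδp n) F x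
    show ((thickenedIndicator (hδp n) F x : NNReal) : ℝ) ≤ 1
    exact_mod_cast this
  have hgi : Integrable g μ := Integrable.of_bound hgm.aestronglyMeasurable 1
    (Eventually.of_forall fun x => by
      rw [Real.norm_eq_abs, abs_of_nonneg (hg0 x)]; exact hg1 x)
  refine ⟨g, δ⁻¹, by positivity, hg0, hg1, ?_, ?_⟩
  · intro x y
    have h := (lipschitzWith_thickenedIndicator (hδp n) F).dist_le_mul x y
    have h1 : ((δ.toNNReal⁻¹ : NNReal) : ℝ) = δ⁻¹ := by
      rw [NNReal.coe_inv, Real.coe_toNNReal _ hδ0.le]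
    rw [h1] at h
    exact h
  · have hgF : ∀ x, F.indicator (fun _ => (1 : ℝ)) x ≤ g x := by
      intro x
      by_cases hx : x ∈ F
      · rw [Set.indicator_of_mem hx]
        have := thickenedIndicator_one (hδp n) F hx
        show (1 : ℝ) ≤ ((thickenedIndicator (hδp n) F x : NNReal) : ℝ)
        rw [this]
        simp
      · rw [Set.indicator_of_notMem hx]
        exact hg0 x
    have hle : ∀ x, |A.indicator (fun _ => (1 : ℝ)) x - g x| ≤
        (A \ F).indicator (fun _ => (1 : ℝ)) x + (g x - F.indicator (fun _ => (1 : ℝ)) x) := by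
      intro x
      have h1 := hgF x
      by_cases hxF : x ∈ F
      · have hxA := hFA hxF
        have h2 : x ∉ A \ F := fun h => h.2 hxF
        rw [Set.indicator_of_mem hxA, Set.indicator_of_notMem h2, Set.indicator_of_mem hxF] at *
        have := hg1 x
        rw [abs_le]
        constructor <;> linarith
      · by_cases hxA : x ∈ A
        · have h2 : x ∈ A \ F := ⟨hxA, hxF⟩
          rw [Set.indicator_of_mem hxA, Set.indicator_of_mem h2, Set.indicator_of_notMem hxF] at *
          have := hg1 x
          rw [abs_le]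
          constructor <;> linarith
        · have h2 : x ∉ A \ F := fun h => hxA h.1
          rw [Set.indicator_of_notMem hxA, Set.indicator_of_notMem h2,
            Set.indicator_of_notMem hxF] at *
          rw [abs_le]
          constructor <;> linarith
    have i1 : Integrable ((A \ F).indicator (fun _ => (1 : ℝ))) μ :=
      (integrable_const _).indicator (hA.diff hFc.measurableSet)
    have i2 : Integrable (F.indicator (fun _ => (1 : ℝ))) μ :=
      (integrable_const _).indicator hFc.measurableSet
    have i3 : Integrable (A.indicator (fun _ => (1 : ℝ))) μ := (integrable_const _).indicator hA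
    have i4 : Integrable (fun x => g x - F.indicator (fun _ => (1 : ℝ)) x) μ := hgi.sub i2
    calc ∫ x, |A.indicator (fun _ => (1 : ℝ)) x - g x| ∂μ ≤
        ∫ x, ((A \ F).indicator (fun _ => (1 : ℝ)) x +
          (g x - F.indicator (fun _ => (1 : ℝ)) x)) ∂μ :=
          integral_mono (i3.sub hgi).abs (i1.add i4) hle
      _ = μ.real (A \ F) + (∫ x, g x ∂μ - μ.real F) := by
          rw [integral_add i1 i4, integral_sub hgi i2,
            integral_indicator_const _ (hA.diff hFc.measurableSet),
            integral_indicator_const _ hFc.measurableSet]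
          simp
      _ ≤ ε / 2 + ε / 2 := by
          apply add_le_add
          · rw [measureReal_def]
            exact ENNReal.toReal_le_of_le_ofReal (by positivity) hF.le
          · have h1 : ∫ x, g x ∂μ = (∫⁻ x, (thickenedIndicator (hδp n) F x : ENNReal) ∂μ).toReal := by
              rw [integral_eq_lintegral_of_nonneg_ae (Eventually.of_forall hg0)
                hgm.aestronglyMeasurable]
              congr 1
              apply lintegral_congr
              intro x
              show ENNReal.ofReal ((thickenedIndicator (hδp n) F x : NNReal) : ℝ) = _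
              rw [ENNReal.ofReal_coe_nnreal]
            rw [h1, measureReal_def]
            have h2 := ENNReal.toReal_mono (ENNReal.add_ne_top.2
              ⟨measure_ne_top μ F, ENNReal.ofReal_ne_top⟩) hn.le
            rw [ENNReal.toReal_add (measure_ne_top μ F) ENNReal.ofReal_ne_top,
              ENNReal.toReal_ofReal (by positivity)] at h2
            linarith
      _ = ε := by ring

end approx

/-- The curve stopped at time `s`. -/
noncomputable def stop (s : unitInterval) (f : C(unitInterval, ℂ)) : C(unitInterval, ℂ) :=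
  f.comp ⟨fun t => min t s, by fun_prop⟩

theorem stop_apply (s : unitInterval) (f : C(unitInterval, ℂ)) (t : unitInterval) :
    stop s f t = f (min t s) := rfl

theorem stop_cont (s : unitInterval) : Continuous (stop s) := ContinuousMap.continuous_precomp _

theorem plc_agree {n m : ℕ} {s : ℝ} (hm : s * n ≤ m) {x y : ℕ → ℂ} (h : ∀ k ≤ m, x k = y k)
    {t : unitInterval} (ht : (t : ℝ) ≤ s) : plc n x t = plc n y t := by
  unfold plc
  rw [H984N.pl_apply', H984N.pl_apply']
  rw [h 0 (Nat.zero_le _)]
  congr 1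
  apply Finset.sum_congr rfl
  intro k _
  rcases lt_or_ge k m with hk | hk
  · rw [h k hk.le, h (k + 1) hk]
  · have : H984N.clamp ((t : ℝ) * n - k) = 0 := by
      apply H984N.pl_clamp_zero
      have h1 : (t : ℝ) * n ≤ s * n := mul_le_mul_of_nonneg_right ht (by positivity)
      have h2 : (m : ℝ) ≤ k := by exact_mod_cast hk
      linarith
    rw [this]
    simp

/-- **Mixing of the limit laws.** -/
theorem mixing : ∃ C c : ℝ, 0 < C ∧ 0 < c ∧ ∀ μ ∈ Lims, ∀ s : ℝ, 0 < s → s ≤ 1 →
    ∀ h : C(unitInterval, ℂ) → ℝ, Continuous h → (∀ f, |h f| ≤ 1) →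
    (∀ f f' : C(unitInterval, ℂ), (∀ t : unitInterval, (t : ℝ) ≤ s → f t = f' t) → h f = h f') →
    ∀ g : C(unitInterval, ℂ) → ℝ, (∀ f, |g f| ≤ 1) → (∀ f f', |g f - g f'| ≤ dist f f') →
    |∫ f, h f * g f ∂(μ : Measure C(unitInterval, ℂ)) -
      (∫ f, h f ∂(μ : Measure C(unitInterval, ℂ))) *
        ∫ f, g f ∂(μ : Measure C(unitInterval, ℂ))| ≤ C * s ^ c := by
  obtain ⟨C, c, hC, hc, key⟩ := cov
  refine ⟨C, c, hC, hc, ?_⟩
  rintro μ ⟨φ, hφ, hμ⟩ s hs hs1 h hcont hb hdep g hg hlip
  have gc : Continuous g := by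
    have : LipschitzWith 1 g := LipschitzWith.of_dist_le_mul fun f f' => by
      rw [Real.dist_eq, NNReal.coe_one, one_mul]
      exact hlip f f'
    exact this.continuous
  have hconv : ∀ u : C(unitInterval, ℂ) → ℝ, Continuous u → (∀ f, |u f| ≤ 1) →
      Tendsto (fun i => ∫ ω, u (curve (φ i) ω) ∂perc) atTop
        (𝓝 (∫ f, u f ∂(μ : Measure C(unitInterval, ℂ)))) := by
    intro u uc ub
    have h2 := ProbabilityMeasure.tendsto_iff_forall_integral_tendsto.1 hμ
    have h3 := h2 (BoundedContinuousFunction.ofNormedAddCommGroup u uc 1 fun f => by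
      rw [Real.norm_eq_abs]; exact ub f)
    refine h3.congr fun i => ?_
    exact lawH_int (φ i) uc
  have l1 := hconv (fun f => h f * g f) (hcont.mul gc) (fun f => by
    rw [abs_mul]
    exact mul_le_one₀ (hb f) (abs_nonneg _) (hg f))
  have l2 := hconv h hcont hb
  have l3 := hconv g gc hg
  have l4 := ((l1.sub (l2.mul l3)).abs)
  -- the right-hand side
  have hφr : Tendsto (fun i => (φ i : ℝ)) atTop atTop := tendsto_natCast_atTop_atTop.comp hφ
  have l5 : Tendsto (fun i => C * (s + 1 / (φ i : ℝ)) ^ c) atTop (𝓝 (C * (s + 0) ^ c)) :=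
    ((tendsto_const_nhds.add (tendsto_const_nhds.div_atTop hφr)).rpow_const
      (Or.inr hc.le)).const_mul C
  rw [add_zero] at l5
  refine le_of_tendsto_of_tendsto l4 l5 ?_
  filter_upwards [hφ.eventually_ge_atTop 1] with i hi
  set n := φ i with hn
  have hn0 : (0 : ℝ) < n := by exact_mod_cast hi
  set m : ℕ := ⌈s * (n : ℝ)⌉₊ with hm
  have hm1 : 1 ≤ m := Nat.one_le_ceil_iff.2 (by positivity)
  have hmn : m ≤ n := by
    rw [hm, Nat.ceil_le]
    calc s * (n : ℝ) ≤ 1 * n := mul_le_mul_of_nonneg_right hs1 hn0.le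
      _ = n := one_mul _
  have hsm : s * (n : ℝ) ≤ m := Nat.le_ceil _
  have h1 := key m n hm1 hmn (fun x => h (plc n x)) (hcont.measurable.comp (plc_meas n))
    (fun x y hxy => hdep _ _ fun t ht => plc_agree hsm hxy ht) (fun x => hb _) g hg hlip
  refine h1.trans ?_
  apply mul_le_mul_of_nonneg_left _ hC.le
  apply Real.rpow_le_rpow (by positivity) _ hc.le
  rw [div_le_iff₀ hn0, add_mul, one_div_mul_cancel hn0.ne']
  exact (Nat.ceil_lt_add_one (by positivity)).le

/-- **Zero-one law at the starting point.** -/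
theorem germ {μ : ProbabilityMeasure C(unitInterval, ℂ)} (hμ : μ ∈ Lims)
    {A : Set C(unitInterval, ℂ)} (mA : MeasurableSet A)
    (hA : ∀ f f' : C(unitInterval, ℂ), (∃ s : unitInterval, 0 < s ∧ ∀ t ≤ s, f t = f' t) →
      (f ∈ A ↔ f' ∈ A)) :
    (μ : Measure C(unitInterval, ℂ)) A = 0 ∨ (μ : Measure C(unitInterval, ℂ)) A = 1 := by
  obtain ⟨C, c, hC, hc, key⟩ := mixing
  set ν : Measure C(unitInterval, ℂ) := (μ : Measure C(unitInterval, ℂ)) with hν
  set a : ℝ := ν.real A with ha
  have ha0 : 0 ≤ a := measureReal_nonneg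
  have ha1 : a ≤ 1 := measureReal_le_one
  set u : C(unitInterval, ℂ) → ℝ := A.indicator (fun _ => (1 : ℝ)) with hu
  have hu01 : ∀ x, u x = 0 ∨ u x = 1 := by
    intro x
    by_cases hx : x ∈ A
    · right; exact Set.indicator_of_mem hx _
    · left; exact Set.indicator_of_notMem hx _
  have mu : Measurable u := measurable_const.indicator mA
  have hub : ∀ x, |u x| ≤ 1 := by
    intro x
    rcases hu01 x with h | h <;> rw [h] <;> norm_num
  have huint : ∫ x, u x ∂ν = a := by
    rw [hu, integral_indicator_const _ mA]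
    simp [ha]
  have ib : ∀ v : C(unitInterval, ℂ) → ℝ, Measurable v → (∀ x, |v x| ≤ 2) → Integrable v ν := by
    intro v mv hv
    exact Integrable.of_bound mv.aestronglyMeasurable 2 (Eventually.of_forall fun x => by
      rw [Real.norm_eq_abs]; exact hv x)
  have hmain : ∀ ε : ℝ, 0 < ε → |a - a * a| ≤ 5 * ε := by
    intro ε hε
    obtain ⟨g, L, hL, hg0, hg1, hgl, hgi⟩ := lip_approx ν mA hε
    set L' : ℝ := max L 1 with hL'
    have hL'0 : 0 < L' := lt_of_lt_of_le hL (le_max_left _ _)
    have hL'1 : 1 ≤ L' := le_max_right _ _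
    have hgb : ∀ x, |g x| ≤ 1 := fun x => by rw [abs_of_nonneg (hg0 x)]; exact hg1 x
    -- choose `s`
    obtain ⟨s, hs0, hs1, hsε⟩ : ∃ s : ℝ, 0 < s ∧ s ≤ 1 ∧ L' * (C * s ^ c) ≤ ε := by
      have h1 : Tendsto (fun n : ℕ => L' * (C * (1 / ((n : ℝ) + 1)) ^ c)) atTop
          (𝓝 (L' * (C * 0 ^ c))) :=
        ((tendsto_one_div_add_atTop_nhds_zero_nat.rpow_const (Or.inr hc.le)).const_mul C).const_mul L'
      rw [Real.zero_rpow hc.ne', mul_zero, mul_zero] at h1
      obtain ⟨n, hn⟩ := (h1.eventually (gt_mem_nhds hε)).exists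
      refine ⟨1 / ((n : ℝ) + 1), by positivity, ?_, hn.le⟩
      rw [div_le_one (by positivity)]
      have : (0 : ℝ) ≤ n := by positivity
      linarith
    set s' : unitInterval := ⟨s, hs0.le, hs1⟩ with hs'
    have hprob : IsProbabilityMeasure (ν.map (stop s')) :=
      Measure.isProbabilityMeasure_map (stop_cont s').measurable.aemeasurable
    obtain ⟨h', Lh, hLh, hh0, hh1, hhl, hhi⟩ := lip_approx (ν.map (stop s')) mA hε
    have hh'c : Continuous h' := by
      have : LipschitzWith Lh.toNNReal h' := LipschitzWith.of_dist_le_mul fun f f' => by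
        rw [Real.dist_eq, Real.coe_toNNReal _ hLh.le]
        exact hhl f f'
      exact this.continuous
    have hgc : Continuous g := by
      have : LipschitzWith L.toNNReal g := LipschitzWith.of_dist_le_mul fun f f' => by
        rw [Real.dist_eq, Real.coe_toNNReal _ hL.le]
        exact hgl f f'
      exact this.continuous
    set h : C(unitInterval, ℂ) → ℝ := fun f => h' (stop s' f) with hh
    have hhc : Continuous h := hh'c.comp (stop_cont s')
    have hhb : ∀ f, |h f| ≤ 1 := fun f => by
      rw [abs_of_nonneg (hh0 _)]; exact hh1 _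
    have hstopA : ∀ f, u (stop s' f) = u f := by
      intro f
      have h1 : stop s' f ∈ A ↔ f ∈ A := by
        apply hA
        refine ⟨s', ?_, fun t ht => ?_⟩
        · exact Subtype.mk_lt_mk.2 hs0
        · rw [stop_apply, min_eq_left ht]
      by_cases hf : f ∈ A
      · rw [hu, Set.indicator_of_mem hf, Set.indicator_of_mem (h1.2 hf)]
      · rw [hu, Set.indicator_of_notMem hf, Set.indicator_of_notMem fun hc => hf (h1.1 hc)]
    have hhi' : ∫ f, |u f - h f| ∂ν ≤ ε := by
      have mm : AEStronglyMeasurable (fun x => |A.indicator (fun _ => (1 : ℝ)) x - h' x|)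
          (ν.map (stop s')) := (mu.sub hh'c.measurable).abs.aestronglyMeasurable
      rw [integral_map (stop_cont s').measurable.aemeasurable mm] at hhi
      refine le_trans (le_of_eq ?_) hhi
      apply integral_congr_ae
      exact Eventually.of_forall fun f => by
        show |u f - h f| = |u (stop s' f) - h' (stop s' f)|
        rw [hstopA]
    -- mixing
    have hmix := key μ hμ s hs0 hs1 h hhc hhb (fun f f' hff => by
      show h' (stop s' f) = h' (stop s' f')
      congr 1
      ext t
      rw [stop_apply, stop_apply]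
      apply hff
      exact Subtype.coe_le_coe.2 (min_le_right t s')) (fun f => L'⁻¹ * g f) (fun f => by
        rw [abs_mul, abs_of_pos (inv_pos.2 hL'0), inv_mul_le_iff₀ hL'0, mul_one]
        exact (hgb f).trans hL'1) (fun f f' => by
        rw [← mul_sub, abs_mul, abs_of_pos (inv_pos.2 hL'0), inv_mul_le_iff₀ hL'0]
        refine (hgl f f').trans ?_
        exact mul_le_mul_of_nonneg_right (le_max_left _ _) dist_nonneg)
    have hmix' : |∫ f, h f * g f ∂ν - (∫ f, h f ∂ν) * ∫ f, g f ∂ν| ≤ ε := by
      have e1 : ∫ f, h f * (L'⁻¹ * g f) ∂ν = L'⁻¹ * ∫ f, h f * g f ∂ν := by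
        rw [← integral_const_mul]
        congr 1
        funext f
        ring
      rw [e1, integral_const_mul] at hmix
      have e2 : L'⁻¹ * ∫ f, h f * g f ∂ν - (∫ f, h f ∂ν) * (L'⁻¹ * ∫ f, g f ∂ν) =
          L'⁻¹ * (∫ f, h f * g f ∂ν - (∫ f, h f ∂ν) * ∫ f, g f ∂ν) := by ring
      rw [e2, abs_mul, abs_of_pos (inv_pos.2 hL'0), inv_mul_le_iff₀ hL'0] at hmix
      exact hmix.trans hsε
    -- comparison
    have i_u := ib u mu fun x => (hub x).trans (by norm_num)
    have i_h := ib h hhc.measurable fun x => (hhb x).trans (by norm_num)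
    have i_g := ib g hgc.measurable fun x => (hgb x).trans (by norm_num)
    have i_hg : Integrable (fun f => h f * g f) ν := ib _ (hhc.mul hgc).measurable fun x => by
      rw [abs_mul]
      exact (mul_le_one₀ (hhb x) (abs_nonneg _) (hgb x)).trans (by norm_num)
    have i_uh : Integrable (fun f => |u f - h f|) ν := (i_u.sub i_h).abs
    have i_ug : Integrable (fun f => |u f - g f|) ν := (i_u.sub i_g).abs
    have c1 : |a - ∫ f, h f * g f ∂ν| ≤ 2 * ε := by
      rw [← huint, ← integral_sub i_u i_hg]
      refine (abs_integral_le_integral_abs).trans ?_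
      calc ∫ f, |u f - h f * g f| ∂ν ≤ ∫ f, (|u f - h f| + |u f - g f|) ∂ν := by
            apply integral_mono (i_u.sub i_hg).abs (i_uh.add i_ug)
            intro f
            show |u f - h f * g f| ≤ |u f - h f| + |u f - g f|
            rcases hu01 f with hf | hf
            · rw [hf, zero_sub, zero_sub, zero_sub, abs_neg, abs_neg, abs_neg, abs_mul]
              have h1 := mul_le_of_le_one_right (abs_nonneg (h f)) (hgb f)
              have h2 := abs_nonneg (g f)
              linarith
            · rw [hf]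
              have e : 1 - h f * g f = (1 - h f) + h f * (1 - g f) := by ring
              rw [e]
              refine (abs_add_le _ _).trans (add_le_add le_rfl ?_)
              rw [abs_mul]
              exact mul_le_of_le_one_left (abs_nonneg _) (hhb f)
        _ = ∫ f, |u f - h f| ∂ν + ∫ f, |u f - g f| ∂ν := integral_add i_uh i_ug
        _ ≤ 2 * ε := by
            have := hgi
            linarith
    have c2 : |a - ∫ f, h f ∂ν| ≤ ε := by
      rw [← huint, ← integral_sub i_u i_h]
      exact (abs_integral_le_integral_abs).trans hhi'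
    have c3 : |a - ∫ f, g f ∂ν| ≤ ε := by
      rw [← huint, ← integral_sub i_u i_g]
      exact (abs_integral_le_integral_abs).trans hgi
    have hgint : |∫ f, g f ∂ν| ≤ 1 := by
      refine (abs_integral_le_integral_abs).trans ?_
      calc ∫ f, |g f| ∂ν ≤ ∫ _f, (1 : ℝ) ∂ν := integral_mono i_g.abs (integrable_const _) hgb
        _ = 1 := by simp
    have c4 : |a * a - (∫ f, h f ∂ν) * ∫ f, g f ∂ν| ≤ 2 * ε := by
      have e : a * a - (∫ f, h f ∂ν) * ∫ f, g f ∂ν =
          a * (a - ∫ f, g f ∂ν) + (a - ∫ f, h f ∂ν) * ∫ f, g f ∂ν := by ring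
      rw [e]
      refine (abs_add_le _ _).trans ?_
      rw [abs_mul, abs_mul, abs_of_nonneg ha0]
      have h1 := mul_le_mul ha1 c3 (abs_nonneg _) zero_le_one
      have h2 := mul_le_mul c2 hgint (abs_nonneg _) hε.le
      linarith
    have t1 := abs_sub_le a (∫ f, h f * g f ∂ν) (a * a)
    have t2 := abs_sub_le (∫ f, h f * g f ∂ν) ((∫ f, h f ∂ν) * ∫ f, g f ∂ν) (a * a)
    rw [abs_sub_comm ((∫ f, h f ∂ν) * ∫ f, g f ∂ν) (a * a)] at t2
    linarith
  have haa : a - a * a = 0 := by
    by_contra hne
    have h1 : 0 < |a - a * a| := abs_pos.2 hne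
    have h2 := hmain (|a - a * a| / 10) (by positivity)
    linarith
  have h3 : a * (1 - a) = 0 := by linarith
  rcases mul_eq_zero.1 h3 with h | h
  · left
    rw [ha, measureReal_def, ENNReal.toReal_eq_zero_iff] at h
    rcases h with h | h
    · exact h
    · exact absurd h (measure_ne_top _ _)
  · right
    have h4 : ν.real A = 1 := by linarith
    rw [measureReal_def] at h4
    have h5 := ENNReal.ofReal_toReal (measure_ne_top ν A)
    rw [← h5, h4, ENNReal.ofReal_one]

end Pool.Agent.Q218.LL
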