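import Pool.Agent.Q218.LL.Scale

/-!
The set of all limit laws of the rescaled exploration path.
-/

set_option autoImplicit false

namespace Pool.Agent.Q218.LL

open H984H H974 Finset H342P H984P MeasureTheory Filter Topology
open Pool.Agent.Q218.ZO Pool.Agent.Q218.DC

/-- The limit laws of the exploration path: all limits of the laws `lawH n` along sequences which
tend to infinity. -/
def Lims : Set (ProbabilityMeasure C(unitInterval, ℂ)) :=
  {μ | ∃ φ : ℕ → ℕ, Tendsto φ atTop atTop ∧ Tendsto (fun i => lawH (φ i)) atTop (𝓝 μ)}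

theorem tight_all {ε : ℝ} (hε : 0 < ε) : ∃ Λ : ℝ, 1 ≤ Λ ∧ ∀ n : ℕ,
    (lawH n : Measure C(unitInterval, ℂ)) (GoodC (1/2) Λ)ᶜ ≤ ENNReal.ofReal ε := by
  obtain ⟨⟨c0, hc0, hL⟩, ⟨C0, hC0, hU⟩, -⟩ := Results.MP_6c8efb_pr.Displacement.inputs
  exact lawH_tight hc0 hC0 hL hU (by norm_num) (by norm_num) hε

theorem subseq (φ : ℕ → ℕ) : ∃ ψ : ℕ → ℕ, StrictMono ψ ∧
    ∃ μ : ProbabilityMeasure C(unitInterval, ℂ),
      Tendsto (fun i => lawH (φ (ψ i))) atTop (𝓝 μ) :=
  exists_limitC (β := 1/2) (by norm_num) (ν := fun i => lawH (φ i)) (fun ε hε => by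
    obtain ⟨Λ, hΛ, h⟩ := tight_all hε
    exact ⟨Λ, hΛ, fun i => h (φ i)⟩)

theorem range_compact : IsCompact (closure (Set.range lawH)) := by
  have htight : IsTightMeasureSet
      {((ν' : ProbabilityMeasure C(unitInterval, ℂ)) : Measure C(unitInterval, ℂ)) |
        ν' ∈ Set.range lawH} := by
    rw [isTightMeasureSet_iff_exists_isCompact_measure_compl_le]
    intro ε hε
    by_cases htop : ε = ⊤
    · exact ⟨∅, isCompact_empty, fun ν _ => by rw [htop]; exact le_top⟩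
    have hε' : 0 < ε.toReal := ENNReal.toReal_pos hε.ne' htop
    obtain ⟨Λ, hΛ, hprob⟩ := tight_all hε'
    refine ⟨GoodC (1/2) Λ, goodC_compact (by norm_num) hΛ, ?_⟩
    rintro ν' ⟨ν'', ⟨i, rfl⟩, rfl⟩
    refine (hprob i).trans ?_
    rw [ENNReal.ofReal_toReal htop]
  exact isCompact_closure_of_isTightMeasureSet htight

theorem Lims_eq : Lims = {μ | MapClusterPt μ atTop lawH} := by
  ext μ
  constructor
  · rintro ⟨φ, hφ, h⟩
    exact MapClusterPt.of_comp hφ h.mapClusterPt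
  · intro h
    obtain ⟨φ, hφ, h'⟩ := TopologicalSpace.FirstCountableTopology.tendsto_subseq h
    exact ⟨φ, hφ.tendsto_atTop, h'⟩

theorem Lims_closed : IsClosed Lims := by
  rw [Lims_eq]
  exact isClosed_setOf_clusterPt

theorem Lims_sub : Lims ⊆ closure (Set.range lawH) := by
  rintro μ ⟨φ, _, h⟩
  exact mem_closure_of_tendsto h (Eventually.of_forall fun i => ⟨φ i, rfl⟩)

theorem Lims_compact : IsCompact Lims := range_compact.of_isClosed_subset Lims_closed Lims_sub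

theorem Lims_nonempty : Lims.Nonempty := by
  obtain ⟨ψ, hψ, μ, h⟩ := subseq id
  exact ⟨μ, ψ, hψ.tendsto_atTop, h⟩

/-- A sequence of laws which avoids an open neighbourhood of the limit set infinitely often is
impossible. -/
theorem eventually_mem {U : Set (ProbabilityMeasure C(unitInterval, ℂ))} (hU : IsOpen U)
    (h : Lims ⊆ U) : ∀ᶠ n in atTop, lawH n ∈ U := by
  by_contra hcon
  rw [not_eventually] at hcon
  obtain ⟨φ, hφ, hφU⟩ := Filter.extraction_of_frequently_atTop hcon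
  obtain ⟨ψ, hψ, μ, hμ⟩ := subseq φ
  have hmem : μ ∈ Lims := ⟨fun i => φ (ψ i), hφ.tendsto_atTop.comp hψ.tendsto_atTop, hμ⟩
  obtain ⟨i, hi⟩ := (hμ.eventually (hU.mem_nhds (h hmem))).exists
  exact hφU (ψ i) hi

theorem ratio_tendsto {a b : ℕ → ℕ} (ha : ∀ i, 1 ≤ a i) (hab : ∀ i, a i ≤ b i) {s : ℝ} (hs : 0 < s)
    (h : Tendsto (fun i => (a i : ℝ) / b i) atTop (𝓝 s)) :
    Tendsto (fun i => (⟨(a i : ℝ) / b i, ratio_pos (ha i) (hab i)⟩ : Set.Ioi (0 : ℝ))) atTop
      (𝓝 ⟨s, hs⟩) :=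
  tendsto_subtype_rng.2 h

/-- The laws of nearby scales have nearby limits. -/
theorem scale_limit {a b : ℕ → ℕ} (ha : ∀ i, 1 ≤ a i) (hab : ∀ i, a i ≤ b i) {s : ℝ} (hs : 0 < s)
    (h : Tendsto (fun i => (a i : ℝ) / b i) atTop (𝓝 s))
    {μ : ProbabilityMeasure C(unitInterval, ℂ)}
    (hμ : Tendsto (fun i => lawH (b i)) atTop (𝓝 μ)) :
    Tendsto (fun i => lawH (a i)) atTop (𝓝 (pushS ⟨s, hs⟩ μ)) := by
  have h1 := pushS_tendsto (ratio_tendsto ha hab hs h) hμ
  refine h1.congr fun i => ?_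
  exact (lawH_scale (ha i) (hab i)).symm

theorem Lims_preconnected : IsPreconnected Lims := by
  rw [isPreconnected_closed_iff]
  intro t t' ht ht' hsub hne hne'
  by_contra hemp
  rw [Set.not_nonempty_iff_eq_empty] at hemp
  have hA : IsCompact (Lims ∩ t) := Lims_compact.inter_right ht
  have hB : IsCompact (Lims ∩ t') := Lims_compact.inter_right ht'
  have hdis : Disjoint (Lims ∩ t) (Lims ∩ t') := by
    rw [Set.disjoint_left]
    rintro x ⟨h1, h2⟩ ⟨_, h3⟩
    have : x ∈ Lims ∩ (t ∩ t') := ⟨h1, h2, h3⟩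
    rw [hemp] at this
    exact this
  obtain ⟨U, V, hU, hV, hAU, hBV, hUV⟩ := SeparatedNhds.of_isCompact_isCompact hA hB hdis
  have hsubUV : Lims ⊆ U ∪ V := by
    intro x hx
    rcases hsub hx with h | h
    · exact Or.inl (hAU ⟨hx, h⟩)
    · exact Or.inr (hBV ⟨hx, h⟩)
  have hev := eventually_mem (hU.union hV) hsubUV
  have hfr : ∀ {W : Set (ProbabilityMeasure C(unitInterval, ℂ))}, IsOpen W →
      (Lims ∩ W).Nonempty → ∃ᶠ n in atTop, lawH n ∈ W := by
    intro W hW hWne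
    obtain ⟨μ, ⟨φ, hφ, h⟩, hμ⟩ := hWne
    exact hφ.frequently ((h.eventually (hW.mem_nhds hμ)).frequently)
  have hfU := hfr hU (by obtain ⟨x, hx⟩ := hne; exact ⟨x, hx.1, hAU hx⟩)
  have hfV := hfr hV (by obtain ⟨x, hx⟩ := hne'; exact ⟨x, hx.1, hBV hx⟩)
  have hswitch : ∃ᶠ n in atTop, (1 ≤ n ∧ lawH n ∈ U ∧ lawH (n + 1) ∈ V) := by
    intro hcon
    obtain ⟨N, hN⟩ := eventually_atTop.1 (hcon.and (hev.and (eventually_ge_atTop 1)))
    obtain ⟨n0, hn0, hn0U⟩ := (frequently_atTop.1 hfU) N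
    have hall : ∀ n, n0 ≤ n → lawH n ∈ U := by
      intro n hn
      induction n, hn using Nat.le_induction with
      | base => exact hn0U
      | succ n hn ih =>
        have h1 := (hN n (by omega)).1
        have h2 := (hN (n + 1) (by omega)).2.1
        have h3 := (hN n (by omega)).2.2
        rcases h2 with h2 | h2
        · exact h2
        · exact absurd ⟨h3, ih, h2⟩ h1
    obtain ⟨n1, hn1, hn1V⟩ := (frequently_atTop.1 hfV) n0
    exact Set.disjoint_left.1 hUV (hall n1 hn1) hn1V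
  obtain ⟨φ, hφ, hφs⟩ := Filter.extraction_of_frequently_atTop hswitch
  obtain ⟨ψ, hψ, μ, hμ⟩ := subseq (fun i => φ i + 1)
  have hθ : Tendsto (fun i => φ (ψ i)) atTop atTop := hφ.tendsto_atTop.comp hψ.tendsto_atTop
  have hratio : Tendsto (fun i => ((φ (ψ i) : ℕ) : ℝ) / ((φ (ψ i) + 1 : ℕ) : ℝ)) atTop (𝓝 1) := by
    have h1 : Tendsto (fun n : ℕ => (n : ℝ) / ((n + 1 : ℕ) : ℝ)) atTop (𝓝 1) := by
      have h2 := tendsto_natCast_div_add_atTop (1 : ℝ)
      refine h2.congr fun n => ?_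
      push_cast
      rfl
    exact h1.comp hθ
  have h1 := scale_limit (a := fun i => φ (ψ i)) (b := fun i => φ (ψ i) + 1)
    (fun i => (hφs (ψ i)).1) (fun i => Nat.le_succ _) zero_lt_one hratio hμ
  rw [pushS_one] at h1
  have hmem : μ ∈ Lims := ⟨_, hθ, h1⟩
  rcases hsubUV hmem with h | h
  · obtain ⟨i, hi⟩ := (hμ.eventually (hU.mem_nhds h)).exists
    exact Set.disjoint_left.1 hUV hi (hφs (ψ i)).2.2
  · obtain ⟨i, hi⟩ := (h1.eventually (hV.mem_nhds h)).exists
    exact Set.disjoint_left.1 hUV (hφs (ψ i)).2.1 hi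

theorem tendsto_of_singleton {μ : ProbabilityMeasure C(unitInterval, ℂ)} (h : Lims ⊆ {μ}) :
    Tendsto lawH atTop (𝓝 μ) := by
  rw [tendsto_nhds]
  intro U hU hμ
  exact eventually_mem hU (h.trans (Set.singleton_subset_iff.2 hμ))

/-- Either the laws converge or there are uncountably many limit laws. -/
theorem dichotomy : (∃ μ, Tendsto lawH atTop (𝓝 μ)) ∨ ¬ Lims.Countable := by
  by_cases h : Lims.Countable
  · left
    letI : MetricSpace (ProbabilityMeasure C(unitInterval, ℂ)) :=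
      TopologicalSpace.metrizableSpaceMetric _
    have h1 := h.isTotallyDisconnected
    have h2 := h1 Lims subset_rfl Lims_preconnected
    obtain ⟨μ, hμ⟩ := Lims_nonempty
    exact ⟨μ, tendsto_of_singleton fun ν hν => h2 hν hμ⟩
  · right
    exact h

/-- The set of limit laws is invariant under scaling. -/
theorem Lims_scale {μ : ProbabilityMeasure C(unitInterval, ℂ)} (hμ : μ ∈ Lims) {s : ℝ} (hs : 0 < s)
    (hs1 : s ≤ 1) : pushS ⟨s, hs⟩ μ ∈ Lims := by
  obtain ⟨φ, hφ, h⟩ := hμ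
  -- a tail where `⌊s φ i⌋ ≥ 1`
  have hreal : Tendsto (fun i => s * (φ i : ℝ)) atTop atTop :=
    (tendsto_natCast_atTop_atTop.comp hφ).const_mul_atTop hs
  obtain ⟨i0, hi0⟩ := eventually_atTop.1 (hreal.eventually_ge_atTop 1)
  set b : ℕ → ℕ := fun i => φ (i + i0) with hb
  set a : ℕ → ℕ := fun i => ⌊s * (b i : ℝ)⌋₊ with ha
  have hb1 : ∀ i, 1 ≤ s * (b i : ℝ) := fun i => hi0 (i + i0) (by omega)
  have ha1 : ∀ i, 1 ≤ a i := fun i => (Nat.one_le_floor_iff _).2 (hb1 i)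
  have hab : ∀ i, a i ≤ b i := by
    intro i
    have h1 : (a i : ℝ) ≤ s * b i := Nat.floor_le (by linarith [hb1 i])
    have h2 : s * (b i : ℝ) ≤ 1 * b i := mul_le_mul_of_nonneg_right hs1 (by positivity)
    have : (a i : ℝ) ≤ b i := by linarith
    exact_mod_cast this
  have hbt : Tendsto b atTop atTop := hφ.comp (tendsto_add_atTop_nat i0)
  have hbr : Tendsto (fun i => (b i : ℝ)) atTop atTop := tendsto_natCast_atTop_atTop.comp hbt
  have hratio : Tendsto (fun i => (a i : ℝ) / b i) atTop (𝓝 s) := by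
    have h0 : Tendsto (fun i => s - 1 / (b i : ℝ)) atTop (𝓝 (s - 0)) :=
      tendsto_const_nhds.sub (tendsto_const_nhds.div_atTop hbr)
    rw [sub_zero] at h0
    refine tendsto_of_tendsto_of_tendsto_of_le_of_le h0 tendsto_const_nhds ?_ ?_
    · intro i
      have hb0 : (0 : ℝ) < b i := by
        have := (ha1 i).trans (hab i)
        exact_mod_cast this
      show s - 1 / (b i : ℝ) ≤ (a i : ℝ) / b i
      rw [le_div_iff₀ hb0, sub_mul, one_div_mul_cancel hb0.ne']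
      have : s * (b i : ℝ) < a i + 1 := Nat.lt_floor_add_one _
      linarith
    · intro i
      have hb0 : (0 : ℝ) < b i := by
        have := (ha1 i).trans (hab i)
        exact_mod_cast this
      show (a i : ℝ) / b i ≤ s
      rw [div_le_iff₀ hb0]
      exact Nat.floor_le (by linarith [hb1 i])
  refine ⟨a, ?_, scale_limit ha1 hab hs hratio (h.comp (tendsto_add_atTop_nat i0))⟩
  exact tendsto_nat_floor_atTop.comp (hbr.const_mul_atTop hs)

/-- Every limit law is the image under scaling of a limit law. -/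
theorem Lims_unscale {ν : ProbabilityMeasure C(unitInterval, ℂ)} (hν : ν ∈ Lims) {s : ℝ} (hs : 0 < s)
    (hs1 : s ≤ 1) : ∃ μ ∈ Lims, pushS ⟨s, hs⟩ μ = ν := by
  obtain ⟨φ0, hφ0, h0⟩ := hν
  obtain ⟨i0, hi0⟩ := eventually_atTop.1 (hφ0.eventually_ge_atTop 1)
  set φ : ℕ → ℕ := fun i => φ0 (i + i0) with hφd
  have hφ : Tendsto φ atTop atTop := hφ0.comp (tendsto_add_atTop_nat i0)
  have h : Tendsto (fun i => lawH (φ i)) atTop (𝓝 ν) := h0.comp (tendsto_add_atTop_nat i0)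
  have hφ1 : ∀ i, 1 ≤ φ i := fun i => hi0 (i + i0) (by omega)
  set n : ℕ → ℕ := fun i => ⌈(φ i : ℝ) / s⌉₊ with hn
  have hφr : Tendsto (fun i => (φ i : ℝ)) atTop atTop := tendsto_natCast_atTop_atTop.comp hφ
  have hle : ∀ i, φ i ≤ n i := by
    intro i
    have h1 : (φ i : ℝ) / s ≤ n i := Nat.le_ceil _
    have h2 : (φ i : ℝ) ≤ (φ i : ℝ) / s := by
      rw [le_div_iff₀ hs]
      have : (0 : ℝ) ≤ φ i := by positivity
      nlinarith
    have : (φ i : ℝ) ≤ n i := h2.trans h1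
    exact_mod_cast this
  have hratio : Tendsto (fun i => (φ i : ℝ) / n i) atTop (𝓝 s) := by
    have h1 : Tendsto (fun i => s / (1 + s / (φ i : ℝ))) atTop (𝓝 (s / (1 + 0))) :=
      tendsto_const_nhds.div ((tendsto_const_nhds.div_atTop hφr).const_add 1) (by norm_num)
    rw [add_zero, div_one] at h1
    refine tendsto_of_tendsto_of_tendsto_of_le_of_le h1 tendsto_const_nhds ?_ ?_
    · intro i
      have hφ0' : (0 : ℝ) < φ i := by exact_mod_cast hφ1 i
      have hn0 : (0 : ℝ) < n i := by exact_mod_cast (hφ1 i).trans (hle i)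
      show s / (1 + s / (φ i : ℝ)) ≤ (φ i : ℝ) / n i
      have h2 : (n i : ℝ) < (φ i : ℝ) / s + 1 := Nat.ceil_lt_add_one (by positivity)
      rw [div_le_div_iff₀ (by positivity) hn0]
      have h3 : s * (n i : ℝ) ≤ s * ((φ i : ℝ) / s + 1) := mul_le_mul_of_nonneg_left h2.le hs.le
      refine h3.trans (le_of_eq ?_)
      field_simp
    · intro i
      have hn0 : (0 : ℝ) < n i := by exact_mod_cast (hφ1 i).trans (hle i)
      show (φ i : ℝ) / n i ≤ s
      rw [div_le_iff₀ hn0]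
      have h2 : (φ i : ℝ) / s ≤ n i := Nat.le_ceil _
      rw [div_le_iff₀ hs] at h2
      linarith
  obtain ⟨ψ, hψ, μ, hμ⟩ := subseq n
  have h1 := scale_limit (a := fun i => φ (ψ i)) (b := fun i => n (ψ i)) (fun i => hφ1 _)
    (fun i => hle _) hs (hratio.comp hψ.tendsto_atTop) hμ
  refine ⟨μ, ⟨fun i => n (ψ i), ?_, hμ⟩, tendsto_nhds_unique h1 (h.comp hψ.tendsto_atTop)⟩
  exact (tendsto_atTop_mono hle hφ).comp hψ.tendsto_atTop

/-- Convergence along a sequence with bounded ratios determines all limit laws. -/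
theorem sparse {k : ℕ → ℕ} (hk : Tendsto k atTop atTop) {A : ℝ} (hA : 1 ≤ A)
    (hkA : ∀ᶠ j in atTop, (k (j + 1) : ℝ) ≤ A * k j) {μ : ProbabilityMeasure C(unitInterval, ℂ)}
    (hμ : Tendsto (fun j => lawH (k j)) atTop (𝓝 μ)) {ν : ProbabilityMeasure C(unitInterval, ℂ)}
    (hν : ν ∈ Lims) : ∃ (s : ℝ) (hs : 0 < s), 1 / A ≤ s ∧ s ≤ 1 ∧ ν = pushS ⟨s, hs⟩ μ := by
  classical
  obtain ⟨φ0, hφ0, h0⟩ := hν
  obtain ⟨j0, hj0⟩ := eventually_atTop.1 hkA
  obtain ⟨i0, hi0⟩ := eventually_atTop.1 ((hφ0.eventually_gt_atTop (k j0)).and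
    (hφ0.eventually_ge_atTop 1))
  set φ : ℕ → ℕ := fun i => φ0 (i + i0) with hφd
  have hφ : Tendsto φ atTop atTop := hφ0.comp (tendsto_add_atTop_nat i0)
  have h : Tendsto (fun i => lawH (φ i)) atTop (𝓝 ν) := h0.comp (tendsto_add_atTop_nat i0)
  have hφ1 : ∀ i, 1 ≤ φ i := fun i => (hi0 (i + i0) (by omega)).2
  have hφk : ∀ i, k j0 < φ i := fun i => (hi0 (i + i0) (by omega)).1
  have hex : ∀ i, ∃ j, φ i ≤ k (j0 + j) := by
    intro i
    obtain ⟨j, hj⟩ := ((hk.comp (tl j0)).eventually_ge_atTop (φ i)).exists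
    exact ⟨j, hj⟩
  set J : ℕ → ℕ := fun i => Nat.find (hex i) with hJ
  have hJ1 : ∀ i, φ i ≤ k (j0 + J i) := fun i => Nat.find_spec (hex i)
  have hJ0 : ∀ i, J i ≠ 0 := by
    intro i hi
    have := hJ1 i
    rw [hi, add_zero] at this
    exact absurd this (not_le.2 (hφk i))
  have hJ2 : ∀ i, (k (j0 + J i) : ℝ) ≤ A * φ i := by
    intro i
    obtain ⟨j, hj⟩ := Nat.exists_eq_succ_of_ne_zero (hJ0 i)
    have h1 : ¬ φ i ≤ k (j0 + j) := Nat.find_min (hex i) (by
      show j < J i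
      omega)
    have h2 : (k (j0 + j) : ℝ) ≤ φ i := by
      have : k (j0 + j) ≤ φ i := by omega
      exact_mod_cast this
    have h3 := hj0 (j0 + j) (by omega)
    have h4 : j0 + J i = j0 + j + 1 := by omega
    rw [h4]
    exact h3.trans (mul_le_mul_of_nonneg_left h2 (by linarith))
  have hJt : Tendsto (fun i => j0 + J i) atTop atTop := by
    have h1 : Tendsto (fun i => k (j0 + J i)) atTop atTop := tendsto_atTop_mono hJ1 hφ
    rw [tendsto_atTop]
    intro b
    obtain ⟨M, hM⟩ : ∃ M, ∀ j ≤ b, k j ≤ M :=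
      ⟨∑ j ∈ range (b + 1), k j, fun j hj =>
        Finset.single_le_sum (f := k) (fun _ _ => Nat.zero_le _) (Finset.mem_range.2 (by omega))⟩
    filter_upwards [h1.eventually_gt_atTop M] with i hi
    by_contra hcon
    exact absurd (hM (j0 + J i) (by omega)) (not_le.2 hi)
  -- the ratios
  have hr : ∀ i, (φ i : ℝ) / k (j0 + J i) ∈ Set.Icc (1 / A) 1 := by
    intro i
    have hφ0' : (0 : ℝ) < φ i := by exact_mod_cast hφ1 i
    have hk0 : (0 : ℝ) < k (j0 + J i) := by exact_mod_cast (hφ1 i).trans (hJ1 i)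
    constructor
    · rw [div_le_div_iff₀ (by linarith) hk0, one_mul, mul_comm]
      exact hJ2 i
    · rw [div_le_one hk0]
      exact_mod_cast hJ1 i
  obtain ⟨s, hs, ψ, hψ, hlim⟩ := isCompact_Icc.tendsto_subseq hr
  have hs0 : 0 < s := lt_of_lt_of_le (by positivity) hs.1
  refine ⟨s, hs0, hs.1, hs.2, ?_⟩
  have h1 := scale_limit (a := fun i => φ (ψ i)) (b := fun i => k (j0 + J (ψ i))) (fun i => hφ1 _)
    (fun i => hJ1 _) hs0 hlim (hμ.comp (hJt.comp hψ.tendsto_atTop))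
  exact tendsto_nhds_unique (h.comp hψ.tendsto_atTop) h1

/-- Convergence along a sequence with ratios tending to `1` implies convergence. -/
theorem dense_seq {k : ℕ → ℕ} (hk : Tendsto k atTop atTop)
    (hk1 : Tendsto (fun j => (k (j + 1) : ℝ) / k j) atTop (𝓝 1))
    {μ : ProbabilityMeasure C(unitInterval, ℂ)}
    (hμ : Tendsto (fun j => lawH (k j)) atTop (𝓝 μ)) : Tendsto lawH atTop (𝓝 μ) := by
  apply tendsto_of_singleton
  intro ν hν
  have hA : ∀ p : ℕ, ∃ (s : ℝ) (hs : 0 < s), 1 / (1 + 1 / ((p : ℝ) + 1)) ≤ s ∧ s ≤ 1 ∧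
      ν = pushS ⟨s, hs⟩ μ := by
    intro p
    have hp : (0 : ℝ) < 1 / ((p : ℝ) + 1) := by positivity
    refine sparse hk (A := 1 + 1 / ((p : ℝ) + 1)) (by linarith) ?_ hμ hν
    filter_upwards [hk1.eventually (ge_mem_nhds (show (1 : ℝ) < 1 + 1 / ((p : ℝ) + 1) by linarith)),
      hk.eventually_ge_atTop 1] with j hj hj1
    have hk0 : (0 : ℝ) < k j := by exact_mod_cast hj1
    rwa [div_le_iff₀ hk0] at hj
  choose s hs hs1 hs2 hs3 using hA
  have hst : Tendsto s atTop (𝓝 1) := by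
    have h1 : Tendsto (fun p : ℕ => 1 / (1 + 1 / ((p : ℝ) + 1))) atTop (𝓝 (1 / (1 + 0))) :=
      tendsto_const_nhds.div (tendsto_one_div_add_atTop_nhds_zero_nat.const_add 1) (by norm_num)
    rw [add_zero, div_one] at h1
    exact tendsto_of_tendsto_of_tendsto_of_le_of_le h1 tendsto_const_nhds hs1 hs2
  have h1 := pushS_tendsto (s := fun p => (⟨s p, hs p⟩ : Set.Ioi (0 : ℝ)))
    (s0 := ⟨1, Set.mem_Ioi.2 zero_lt_one⟩) (tendsto_subtype_rng.2 hst)
    (tendsto_const_nhds (x := μ))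
  rw [pushS_one] at h1
  have h2 : Tendsto (fun _ : ℕ => ν) atTop (𝓝 μ) := h1.congr fun p => (hs3 p).symm
  exact tendsto_nhds_unique tendsto_const_nhds h2

end Pool.Agent.Q218.LL
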