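import Pool.Agent.Q218.DC.Fin

/-!
The scaling operators on the space of curves, and the exact scaling relation between the laws.
-/

set_option autoImplicit false

namespace Pool.Agent.Q218.LL

open H984H H974 Finset H342P H984P MeasureTheory Filter Topology
open Pool.Agent.Q218.ZO Pool.Agent.Q218.DC

/-- `t ↦ s t`, projected to `[0, 1]`. -/
noncomputable def rep : C(ℝ, C(unitInterval, unitInterval)) :=
  ContinuousMap.curry ⟨fun p : ℝ × unitInterval => Set.projIcc (0 : ℝ) 1 zero_le_one (p.1 * p.2), by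
    fun_prop⟩

theorem rep_apply (s : ℝ) (t : unitInterval) :
    rep s t = Set.projIcc (0 : ℝ) 1 zero_le_one (s * t) := rfl

theorem rep_coe {s : ℝ} (hs : 0 ≤ s) (hs1 : s ≤ 1) (t : unitInterval) :
    ((rep s t : unitInterval) : ℝ) = s * t := by
  rw [rep_apply, Set.projIcc_of_mem zero_le_one]
  refine ⟨mul_nonneg hs t.2.1, ?_⟩
  calc s * t ≤ 1 * 1 := mul_le_mul hs1 t.2.2 t.2.1 zero_le_one
    _ = 1 := one_mul 1

/-- The rescaled curve `t ↦ s ^ (-4/7) f (s t)`. -/
noncomputable def Sc (s : ℝ) (f : C(unitInterval, ℂ)) : C(unitInterval, ℂ) :=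
  (((s ^ (-(4/7) : ℝ) : ℝ)) : ℂ) • f.comp (rep s)

theorem Sc_apply (s : ℝ) (f : C(unitInterval, ℂ)) (t : unitInterval) :
    Sc s f t = (((s ^ (-(4/7) : ℝ) : ℝ)) : ℂ) * f (rep s t) := rfl

theorem Sc_cont' : Continuous (fun p : Set.Ioi (0 : ℝ) × C(unitInterval, ℂ) => Sc p.1 p.2) := by
  unfold Sc
  have h1 : Continuous (fun p : Set.Ioi (0 : ℝ) × C(unitInterval, ℂ) =>
      p.2.comp (rep (p.1 : ℝ))) := by
    have h2 : Continuous (fun p : Set.Ioi (0 : ℝ) × C(unitInterval, ℂ) => (rep (p.1 : ℝ), p.2)) :=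
      ((map_continuous rep).comp (continuous_subtype_val.comp continuous_fst)).prodMk continuous_snd
    exact ContinuousMap.continuous_comp'.comp h2
  have h3 : Continuous (fun p : Set.Ioi (0 : ℝ) × C(unitInterval, ℂ) =>
      ((((p.1 : ℝ) ^ (-(4/7) : ℝ) : ℝ)) : ℂ)) := by
    apply Complex.continuous_ofReal.comp
    refine Continuous.rpow_const (continuous_subtype_val.comp continuous_fst) fun p => ?_
    left
    exact (ne_of_gt p.1.2)
  exact h3.smul h1

theorem Sc_cont {s : ℝ} (hs : 0 < s) : Continuous (Sc s) :=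
  Sc_cont'.comp (Continuous.prodMk_right (⟨s, hs⟩ : Set.Ioi (0 : ℝ)))

theorem Sc_one (f : C(unitInterval, ℂ)) : Sc 1 f = f := by
  ext t
  rw [Sc_apply, Real.one_rpow]
  have : rep 1 t = t := by
    apply Subtype.ext
    rw [rep_coe zero_le_one le_rfl, one_mul]
  rw [this]
  simp

/-- **Exact scaling.** -/
theorem curve_scale {m n : ℕ} (hm : 1 ≤ m) (hmn : m ≤ n) (ω : Conf) :
    curve m ω = Sc ((m : ℝ) / n) (curve n ω) := by
  have hm0 : (0 : ℝ) < m := by exact_mod_cast hm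
  have hn0 : (0 : ℝ) < n := by exact_mod_cast hm.trans hmn
  have hq : (m : ℝ) / n ≤ 1 := by
    rw [div_le_one hn0]
    exact_mod_cast hmn
  ext t
  rw [Sc_apply]
  unfold curve
  rw [H984N.pl_apply', H984N.pl_apply', rep_coe (by positivity) hq]
  have h1 : (m : ℝ) / n * t * n = t * m := by
    field_simp
  rw [h1]
  have hc : ((((m : ℝ) / n) ^ (-(4/7) : ℝ) : ℝ) : ℂ) * (((n : ℝ) ^ (-(4/7) : ℝ) : ℝ) : ℂ) =
      (((m : ℝ) ^ (-(4/7) : ℝ) : ℝ) : ℂ) := by
    rw [← Complex.ofReal_mul, ← Real.mul_rpow (by positivity) hn0.le, div_mul_cancel₀ _ hn0.ne']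
  have hsum : ∑ k ∈ Finset.range n, ((H984N.clamp ((t : ℝ) * m - k) : ℝ) : ℂ) *
      ((((n : ℝ) ^ (-(4/7) : ℝ) : ℝ) : ℂ) * gam ω (k + 1) -
        (((n : ℝ) ^ (-(4/7) : ℝ) : ℝ) : ℂ) * gam ω k) =
      ∑ k ∈ Finset.range m, ((H984N.clamp ((t : ℝ) * m - k) : ℝ) : ℂ) *
      ((((n : ℝ) ^ (-(4/7) : ℝ) : ℝ) : ℂ) * gam ω (k + 1) -
        (((n : ℝ) ^ (-(4/7) : ℝ) : ℝ) : ℂ) * gam ω k) := by
    symm
    apply Finset.sum_subset
    · intro k hk
      rw [Finset.mem_range] at hk ⊢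
      omega
    · intro k _ hk
      rw [Finset.mem_range, not_lt] at hk
      have : H984N.clamp ((t : ℝ) * m - k) = 0 := by
        apply H984N.pl_clamp_zero
        have h2 : (m : ℝ) ≤ k := by exact_mod_cast hk
        have h3 : (t : ℝ) * m ≤ 1 * m := mul_le_mul_of_nonneg_right t.2.2 hm0.le
        linarith
      rw [this]
      simp
  rw [hsum, mul_add, ← mul_assoc, hc, Finset.mul_sum]
  congr 1
  apply Finset.sum_congr rfl
  intro k _
  rw [← hc]
  ring

/-- The law of the rescaled curve. -/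
noncomputable def pushS (s : Set.Ioi (0 : ℝ)) (μ : ProbabilityMeasure C(unitInterval, ℂ)) :
    ProbabilityMeasure C(unitInterval, ℂ) :=
  μ.map (Sc_cont s.2).measurable.aemeasurable

theorem pushS_eq (s : Set.Ioi (0 : ℝ)) (μ : ProbabilityMeasure C(unitInterval, ℂ)) :
    pushS s μ = ((diracProba s).prod μ).map Sc_cont'.measurable.aemeasurable := by
  apply Subtype.ext
  show (μ : Measure C(unitInterval, ℂ)).map (Sc s) =
    ((Measure.dirac s).prod (μ : Measure C(unitInterval, ℂ))).map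
      (fun p : Set.Ioi (0 : ℝ) × C(unitInterval, ℂ) => Sc p.1 p.2)
  rw [Measure.dirac_prod, Measure.map_map Sc_cont'.measurable measurable_prodMk_left]
  rfl

theorem pushS_tendsto {ι : Type*} {L : Filter ι} {s : ι → Set.Ioi (0 : ℝ)} {s0 : Set.Ioi (0 : ℝ)}
    {μ : ι → ProbabilityMeasure C(unitInterval, ℂ)} {μ0 : ProbabilityMeasure C(unitInterval, ℂ)}
    (hs : Tendsto s L (𝓝 s0)) (hμ : Tendsto μ L (𝓝 μ0)) :
    Tendsto (fun i => pushS (s i) (μ i)) L (𝓝 (pushS s0 μ0)) := by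
  simp only [pushS_eq]
  have h1 : Tendsto (fun i => (diracProba (s i), μ i)) L (𝓝 (diracProba s0, μ0)) :=
    ((continuous_diracProba.tendsto s0).comp hs).prodMk_nhds hμ
  have h2 := (ProbabilityMeasure.continuous_prod (α := Set.Ioi (0 : ℝ))
    (β := C(unitInterval, ℂ))).tendsto (diracProba s0, μ0)
  exact ((ProbabilityMeasure.continuous_map Sc_cont').tendsto _).comp (h2.comp h1)

theorem pushS_one (μ : ProbabilityMeasure C(unitInterval, ℂ)) :
    pushS ⟨1, Set.mem_Ioi.2 zero_lt_one⟩ μ = μ := by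
  apply Subtype.ext
  show (μ : Measure C(unitInterval, ℂ)).map (Sc 1) = μ
  have : Sc 1 = id := by
    funext f
    exact Sc_one f
  rw [this, Measure.map_id]

theorem ratio_pos {m n : ℕ} (hm : 1 ≤ m) (hmn : m ≤ n) : (0 : ℝ) < (m : ℝ) / n := by
  have hm0 : (0 : ℝ) < m := by exact_mod_cast hm
  have hn0 : (0 : ℝ) < n := by exact_mod_cast hm.trans hmn
  positivity

theorem lawH_scale {m n : ℕ} (hm : 1 ≤ m) (hmn : m ≤ n) :
    lawH m = pushS ⟨(m : ℝ) / n, ratio_pos hm hmn⟩ (lawH n) := by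
  apply Subtype.ext
  show perc.map (curve m) = (perc.map (curve n)).map (Sc ((m : ℝ) / n))
  rw [Measure.map_map (Sc_cont (ratio_pos hm hmn)).measurable (curve_meas n)]
  congr 1
  funext ω
  exact curve_scale hm hmn ω

end Pool.Agent.Q218.LL
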